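import Mathlib
import Pool.Agent.W2helper1.NR.Stm

/-!
# MP_d89a53_pr : piece A (little Grothendieck inequality and a greedy choice)
-/

set_option autoImplicit false

namespace Pool.Agent.W2helper71.NR

open Pool.Agent.W2helper1.NR Filter Topology

section quad

variable {n : ℕ} (b : Fin n → Fin n → ℝ) (S : Finset (Fin n))

/-- the quadratic form -/
noncomputable def ff (x : Fin n → ℝ) : ℝ := ∑ j, (∑ i ∈ S, x i * b i j) ^ 2

theorem ff_nonneg (x : Fin n → ℝ) : 0 ≤ ff b S x := Finset.sum_nonneg fun _ _ => sq_nonneg _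

theorem ff_congr {x y : Fin n → ℝ} (h : ∀ i ∈ S, x i = y i) : ff b S x = ff b S y := by
  unfold ff
  refine Finset.sum_congr rfl fun j _ => ?_
  rw [Finset.sum_congr rfl fun i hi => by rw [h i hi]]

theorem ff_smul (c : ℝ) (x : Fin n → ℝ) : ff b S (fun i => c * x i) = c ^ 2 * ff b S x := by
  unfold ff
  rw [Finset.mul_sum]
  refine Finset.sum_congr rfl fun j _ => ?_
  rw [← mul_pow, Finset.mul_sum]
  congr 1
  exact Finset.sum_congr rfl fun i _ => by ring

theorem ff_add_le (x y : Fin n → ℝ) : ff b S (fun i => x i + y i) ≤ 2 * ff b S x + 2 * ff b S y := by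
  unfold ff
  rw [Finset.mul_sum, Finset.mul_sum, ← Finset.sum_add_distrib]
  refine Finset.sum_le_sum fun j _ => ?_
  have h : ∑ i ∈ S, (x i + y i) * b i j = ∑ i ∈ S, x i * b i j + ∑ i ∈ S, y i * b i j := by
    rw [← Finset.sum_add_distrib]
    exact Finset.sum_congr rfl fun i _ => by ring
  rw [h]
  nlinarith [sq_nonneg (∑ i ∈ S, x i * b i j - ∑ i ∈ S, y i * b i j)]

theorem ff_convex (x y : Fin n → ℝ) {t : ℝ} (h0 : 0 ≤ t) (h1 : t ≤ 1) :
    ff b S (fun i => t * x i + (1 - t) * y i) ≤ t * ff b S x + (1 - t) * ff b S y := by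
  unfold ff
  rw [Finset.mul_sum, Finset.mul_sum, ← Finset.sum_add_distrib]
  refine Finset.sum_le_sum fun j _ => ?_
  have h : ∑ i ∈ S, (t * x i + (1 - t) * y i) * b i j =
      t * ∑ i ∈ S, x i * b i j + (1 - t) * ∑ i ∈ S, y i * b i j := by
    rw [Finset.mul_sum, Finset.mul_sum, ← Finset.sum_add_distrib]
    exact Finset.sum_congr rfl fun i _ => by ring
  rw [h]
  set p := ∑ i ∈ S, x i * b i j
  set q := ∑ i ∈ S, y i * b i j
  have h2 : t * p ^ 2 + (1 - t) * q ^ 2 - (t * p + (1 - t) * q) ^ 2 = t * (1 - t) * (p - q) ^ 2 := by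
    ring
  have h3 : 0 ≤ t * (1 - t) * (p - q) ^ 2 := by
    have : 0 ≤ 1 - t := by linarith
    positivity
  linarith

variable {b S}

/-- (A1) -/
theorem ff_box {N : ℝ} (hN : SgnBd b S N) {M : ℝ} (hM : 0 < M) {x : Fin n → ℝ}
    (hx : ∀ i ∈ S, |x i| ≤ M) : ff b S x ≤ M ^ 2 * N := by
  classical
  have key : ∀ (D : Finset (Fin n)) (x : Fin n → ℝ), (∀ i ∈ D, |x i| ≤ M) →
      (∀ i, i ∉ D → x i = M ∨ x i = -M) → ff b S x ≤ M ^ 2 * N := by
    intro D
    induction D using Finset.induction_on with
    | empty =>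
      intro x _ h2
      have h3 : x = fun i => M * (x i / M) := by
        funext i
        field_simp
      rw [h3, ff_smul]
      have h4 := hN (fun i => x i / M) fun i => by
        rcases h2 i (Finset.notMem_empty i) with h | h
        · left
          show x i / M = 1
          rw [h]; field_simp
        · right
          show x i / M = -1
          rw [h]; field_simp
      have h5 : ff b S (fun i => x i / M) ≤ N := h4
      have h6 : 0 ≤ M ^ 2 := by positivity
      exact mul_le_mul_of_nonneg_left h5 h6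
    | insert a D ha ih =>
      intro x h1 h2
      set t : ℝ := (x a + M) / (2 * M) with ht
      have hxa := h1 a (Finset.mem_insert_self _ _)
      rw [abs_le] at hxa
      have ht0 : 0 ≤ t := by
        rw [ht]; apply div_nonneg <;> linarith
      have ht1 : t ≤ 1 := by
        rw [ht, div_le_one (by linarith)]; linarith
      have hxt : x = fun i => t * Function.update x a M i + (1 - t) * Function.update x a (-M) i := by
        funext i
        by_cases hi : i = a
        · subst hi
          simp only [Function.update_self]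
          rw [ht]
          field_simp
          ring
        · simp only [Function.update_of_ne hi]
          ring
      have e1 : ff b S (Function.update x a M) ≤ M ^ 2 * N := by
        refine ih _ (fun i hi => ?_) fun i hi => ?_
        · have : i ≠ a := fun h => ha (h ▸ hi)
          rw [Function.update_of_ne this]
          exact h1 i (Finset.mem_insert_of_mem hi)
        · by_cases hia : i = a
          · subst hia
            rw [Function.update_self]
            exact Or.inl rfl
          · rw [Function.update_of_ne hia]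
            exact h2 i (fun h => (Finset.mem_insert.1 h).elim hia hi)
      have e2 : ff b S (Function.update x a (-M)) ≤ M ^ 2 * N := by
        refine ih _ (fun i hi => ?_) fun i hi => ?_
        · have : i ≠ a := fun h => ha (h ▸ hi)
          rw [Function.update_of_ne this]
          exact h1 i (Finset.mem_insert_of_mem hi)
        · by_cases hia : i = a
          · subst hia
            rw [Function.update_self]
            exact Or.inr rfl
          · rw [Function.update_of_ne hia]
            exact h2 i (fun h => (Finset.mem_insert.1 h).elim hia hi)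
      rw [hxt]
      refine (ff_convex b S _ _ ht0 ht1).trans ?_
      have h3 : 0 ≤ 1 - t := by linarith
      nlinarith
  have h1 : ff b S x = ff b S (fun i => if i ∈ S then x i else M) :=
    ff_congr b S fun i hi => by rw [if_pos hi]
  rw [h1]
  refine key S _ (fun i hi => ?_) fun i hi => ?_
  · rw [if_pos hi]; exact hx i hi
  · rw [if_neg hi]; exact Or.inl rfl

end quad

/-! ### signs -/

section signs

set_option linter.unusedSectionVars false

variable {κ : Type} [Fintype κ] [DecidableEq κ]

/-- the sign -/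
def sg (s : Bool) : ℝ := if s then 1 else -1

theorem sg_sq (s : Bool) : sg s ^ 2 = 1 := by cases s <;> simp [sg]

theorem sg_not (s : Bool) : sg (!s) = -sg s := by cases s <;> simp [sg]

/-- changing one sign -/
def flip (k : κ) : (κ → Bool) ≃ (κ → Bool) :=
  Function.Involutive.toPerm (fun s => Function.update s k (!s k)) fun s => by
    funext i
    by_cases h : i = k
    · subst h; simp
    · simp [Function.update_of_ne h]

theorem flip_self (k : κ) (s : κ → Bool) : flip k s k = !s k := by
  simp [flip, Function.Involutive.toPerm]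

theorem flip_ne {k l : κ} (h : l ≠ k) (s : κ → Bool) : flip k s l = s l := by
  simp [flip, Function.Involutive.toPerm, Function.update_of_ne h]

theorem sum_odd (k : κ) (g : (κ → Bool) → ℝ) (hg : ∀ s, g (flip k s) = g s) :
    ∑ s : κ → Bool, g s * sg (s k) = 0 := by
  have h1 : ∑ s : κ → Bool, g s * sg (s k) = ∑ s : κ → Bool, g (flip k s) * sg (flip k s k) :=
    (Equiv.sum_comp (flip k) fun s => g s * sg (s k)).symm
  have h2 : ∑ s : κ → Bool, g (flip k s) * sg (flip k s k) = -∑ s : κ → Bool, g s * sg (s k) := by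
    rw [← Finset.sum_neg_distrib]
    refine Finset.sum_congr rfl fun s _ => ?_
    rw [hg, flip_self, sg_not]
    ring
  linarith

/-- moments of sums of signs -/
theorem moments (a : κ → ℝ) (D : Finset κ) :
    ∑ s : κ → Bool, (∑ k ∈ D, sg (s k) * a k) ^ 2 = (2 : ℝ) ^ Fintype.card κ * ∑ k ∈ D, a k ^ 2 ∧
    ∑ s : κ → Bool, (∑ k ∈ D, sg (s k) * a k) ^ 4 ≤
      (2 : ℝ) ^ Fintype.card κ * (3 * (∑ k ∈ D, a k ^ 2) ^ 2) := by
  have hcard : ∀ c : ℝ, ∑ _s : κ → Bool, c = (2 : ℝ) ^ Fintype.card κ * c := by
    intro c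
    rw [Finset.sum_const, Finset.card_univ, Fintype.card_fun, Fintype.card_bool, nsmul_eq_mul]
    push_cast
    ring
  induction D using Finset.induction_on with
  | empty => simp
  | insert k D hk ih =>
    obtain ⟨ih2, ih4⟩ := ih
    set Z : (κ → Bool) → ℝ := fun s => ∑ k ∈ D, sg (s k) * a k with hZ
    have hZf : ∀ s, Z (flip k s) = Z s := by
      intro s
      refine Finset.sum_congr rfl fun l hl => ?_
      rw [flip_ne (show l ≠ k from fun h => hk (h ▸ hl))]
    set A := ∑ k ∈ D, a k ^ 2 with hA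
    have hA0 : 0 ≤ A := Finset.sum_nonneg fun _ _ => sq_nonneg _
    have o1 := sum_odd k (fun s => 2 * a k * Z s) fun s => by simp only [hZf]
    have o2 := sum_odd k (fun s => 4 * a k * Z s ^ 3 + 4 * a k ^ 3 * Z s) fun s => by
      simp only [hZf]
    have e2 : ∀ s : κ → Bool, (∑ l ∈ insert k D, sg (s l) * a l) ^ 2 =
        Z s ^ 2 + 2 * a k * Z s * sg (s k) + a k ^ 2 := by
      intro s
      rw [Finset.sum_insert hk]
      have := sg_sq (s k)
      show (sg (s k) * a k + Z s) ^ 2 = _
      linear_combination (a k ^ 2) * this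
    have e4 : ∀ s : κ → Bool, (∑ l ∈ insert k D, sg (s l) * a l) ^ 4 =
        Z s ^ 4 + 6 * a k ^ 2 * Z s ^ 2 + a k ^ 4 +
          (4 * a k * Z s ^ 3 + 4 * a k ^ 3 * Z s) * sg (s k) := by
      intro s
      rw [Finset.sum_insert hk]
      have := sg_sq (s k)
      show (sg (s k) * a k + Z s) ^ 4 = _
      linear_combination (a k ^ 4 * (sg (s k) ^ 2 + 1) + 4 * a k ^ 3 * Z s * sg (s k) +
        6 * a k ^ 2 * Z s ^ 2) * this
    have hP : (0 : ℝ) < (2 : ℝ) ^ Fintype.card κ := by positivity
    rw [Finset.sum_insert hk]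
    constructor
    · rw [Finset.sum_congr rfl fun s _ => e2 s, Finset.sum_add_distrib, Finset.sum_add_distrib, o1,
        hcard, ih2]
      ring
    · rw [Finset.sum_congr rfl fun s _ => e4 s, Finset.sum_add_distrib, o2,
        Finset.sum_add_distrib, Finset.sum_add_distrib, ← Finset.mul_sum, hcard, ih2]
      have h5 : (2 : ℝ) ^ Fintype.card κ * (3 * (a k ^ 2 + A) ^ 2) -
          ((2 : ℝ) ^ Fintype.card κ * (3 * A ^ 2) + 6 * a k ^ 2 * ((2 : ℝ) ^ Fintype.card κ * A) +
            (2 : ℝ) ^ Fintype.card κ * a k ^ 4) = (2 : ℝ) ^ Fintype.card κ * (2 * a k ^ 4) := by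
        ring
      have h6 : 0 ≤ (2 : ℝ) ^ Fintype.card κ * (2 * a k ^ 4) := by positivity
      linarith

end signs

/-! ### the little Grothendieck inequality -/

section works

variable {n : ℕ} (b : Fin n → Fin n → ℝ) (S : Finset (Fin n))

/-- the inequality with constant `c` -/
def Works (c : ℝ) : Prop := ∀ (κ : Type) [Fintype κ] (x : κ → Fin n → ℝ) (V : ℝ), 0 < V →
  (∀ i ∈ S, ∑ k, x k i ^ 2 ≤ V) → ∑ k, ff b S (x k) ≤ c * V

theorem works_start : Works b S ((∑ j, ∑ i ∈ S, b i j ^ 2) * S.card) := by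
  intro κ _ x V hV hx
  have h1 : ∀ k, ff b S (x k) ≤ (∑ j, ∑ i ∈ S, b i j ^ 2) * ∑ i ∈ S, x k i ^ 2 := by
    intro k
    unfold ff
    rw [Finset.sum_mul]
    refine Finset.sum_le_sum fun j _ => ?_
    refine (Finset.sum_mul_sq_le_sq_mul_sq S (x k) fun i => b i j).trans (le_of_eq ?_)
    ring
  have hB : 0 ≤ ∑ j, ∑ i ∈ S, b i j ^ 2 :=
    Finset.sum_nonneg fun _ _ => Finset.sum_nonneg fun _ _ => sq_nonneg _
  calc ∑ k, ff b S (x k) ≤ ∑ k, (∑ j, ∑ i ∈ S, b i j ^ 2) * ∑ i ∈ S, x k i ^ 2 :=
        Finset.sum_le_sum fun k _ => h1 k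
    _ = (∑ j, ∑ i ∈ S, b i j ^ 2) * ∑ i ∈ S, ∑ k, x k i ^ 2 := by
        rw [← Finset.mul_sum]
        congr 1
        exact Finset.sum_comm
    _ ≤ (∑ j, ∑ i ∈ S, b i j ^ 2) * ∑ i ∈ S, V := by
        gcongr with i hi
        exact hx i hi
    _ = _ := by
        rw [Finset.sum_const, nsmul_eq_mul]
        ring

variable {b S}

theorem works_step {N : ℝ} (hN : SgnBd b S N) {c : ℝ} (hc : Works b S c) :
    Works b S (24 * N + c / 2) := by
  classical
  intro κ _ x V hV hx
  set P : ℝ := (2 : ℝ) ^ Fintype.card κ with hP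
  have hP0 : 0 < P := by positivity
  set M : ℝ := √(12 * V) with hM
  have hM0 : 0 < M := Real.sqrt_pos.2 (by positivity)
  have hM2 : M ^ 2 = 12 * V := Real.sq_sqrt (by positivity)
  let X : (κ → Bool) → Fin n → ℝ := fun s i => ∑ k, sg (s k) * x k i
  let Y : (κ → Bool) → Fin n → ℝ := fun s i => if |X s i| ≤ M then X s i else 0
  let D : (κ → Bool) → Fin n → ℝ := fun s i => if |X s i| ≤ M then 0 else X s i
  -- orthogonality
  have h1 : ∑ s, ff b S (X s) = P * ∑ k, ff b S (x k) := by
    have e1 : ∀ (s : κ → Bool) (j : Fin n), ∑ i ∈ S, X s i * b i j =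
        ∑ k, sg (s k) * ∑ i ∈ S, x k i * b i j := by
      intro s j
      simp only [X, Finset.sum_mul, Finset.mul_sum]
      rw [Finset.sum_comm]
      exact Finset.sum_congr rfl fun k _ => Finset.sum_congr rfl fun i _ => by ring
    unfold ff
    simp only [e1]
    rw [Finset.sum_comm]
    have e2 : ∀ j : Fin n, ∑ s : κ → Bool, (∑ k, sg (s k) * ∑ i ∈ S, x k i * b i j) ^ 2 =
        P * ∑ k, (∑ i ∈ S, x k i * b i j) ^ 2 := fun j =>
      (moments (fun k => ∑ i ∈ S, x k i * b i j) Finset.univ).1
    rw [Finset.sum_congr rfl fun j _ => e2 j, ← Finset.mul_sum, Finset.sum_comm]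
  -- splitting
  have h2 : ∀ s, ff b S (X s) ≤ 24 * V * N + 2 * ff b S (D s) := by
    intro s
    have e1 : X s = fun i => Y s i + D s i := by
      funext i
      simp only [Y, D]
      split_ifs <;> simp
    have e2 : ff b S (Y s) ≤ M ^ 2 * N := by
      refine ff_box hN hM0 fun i _ => ?_
      simp only [Y]
      split_ifs with h
      · exact h
      · rw [abs_zero]; exact hM0.le
    have e3 := ff_add_le b S (Y s) (D s)
    rw [← e1] at e3
    rw [hM2] at e2
    linarith
  -- the large part
  have h3 : ∑ s, ff b S (D s) ≤ c * (P * V / 4) := by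
    refine hc (κ → Bool) D (P * V / 4) (by positivity) fun i hi => ?_
    have e1 : ∀ s, D s i ^ 2 ≤ X s i ^ 4 / (12 * V) := by
      intro s
      simp only [D]
      split_ifs with h
      · rw [zero_pow two_ne_zero]
        positivity
      · push Not at h
        rw [le_div_iff₀ (by positivity), ← hM2]
        have h4 : M ^ 2 ≤ X s i ^ 2 := by
          rw [← sq_abs (X s i)]
          gcongr
        nlinarith [sq_nonneg (X s i)]
    have e2 : ∑ s, X s i ^ 4 ≤ P * (3 * V ^ 2) := by
      refine (moments (fun k => x k i) Finset.univ).2.trans ?_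
      have h5 := hx i hi
      have h6 : 0 ≤ ∑ k, x k i ^ 2 := Finset.sum_nonneg fun _ _ => sq_nonneg _
      gcongr
    calc ∑ s, D s i ^ 2 ≤ ∑ s, X s i ^ 4 / (12 * V) := Finset.sum_le_sum fun s _ => e1 s
      _ = (∑ s, X s i ^ 4) / (12 * V) := by rw [Finset.sum_div]
      _ ≤ P * (3 * V ^ 2) / (12 * V) := by gcongr
      _ = P * V / 4 := by field_simp; ring
  have h4 : P * ∑ k, ff b S (x k) ≤ P * ((24 * N + c / 2) * V) := by
    rw [← h1]
    calc ∑ s, ff b S (X s) ≤ ∑ s, (24 * V * N + 2 * ff b S (D s)) := Finset.sum_le_sum fun s _ => h2 s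
      _ = P * (24 * V * N) + 2 * ∑ s, ff b S (D s) := by
          rw [Finset.sum_add_distrib, Finset.sum_const, Finset.card_univ, Fintype.card_fun,
            Fintype.card_bool, nsmul_eq_mul, ← Finset.mul_sum]
          push_cast
          rfl
      _ ≤ P * (24 * V * N) + 2 * (c * (P * V / 4)) := by linarith
      _ = _ := by ring
  exact le_of_mul_le_mul_left h4 hP0

theorem works_final {N : ℝ} (hN : SgnBd b S N) : Works b S (48 * N) := by
  set c₀ := (∑ j, ∑ i ∈ S, b i j ^ 2) * S.card with hc₀
  have h1 : ∀ m : ℕ, Works b S (48 * N + (c₀ - 48 * N) * (1 / 2) ^ m) := by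
    intro m
    induction m with
    | zero =>
      have := works_start b S
      rw [pow_zero, mul_one]
      convert this using 1
      ring
    | succ m ih =>
      have := works_step hN ih
      convert this using 1
      rw [pow_succ]
      ring
  intro κ _ x V hV hx
  have h2 : Tendsto (fun m : ℕ => (48 * N + (c₀ - 48 * N) * (1 / 2) ^ m) * V) atTop
      (𝓝 ((48 * N + (c₀ - 48 * N) * 0) * V)) := by
    refine Tendsto.mul_const V (Tendsto.const_add _ (Tendsto.const_mul _ ?_))
    exact tendsto_pow_atTop_nhds_zero_of_lt_one (by norm_num) (by norm_num)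
  rw [mul_zero, add_zero] at h2
  exact ge_of_tendsto' h2 fun m => h1 m κ x V hV hx

end works

/-- **Piece A** -/
theorem pieceA : PieceA := by
  classical
  intro n b S N hS hN
  by_contra hcon
  push Not at hcon
  have hSc : (0 : ℝ) < S.card := by exact_mod_cast hS.card_pos
  set Λ : ℝ := 144 * N / S.card with hΛ
  -- a unit vector outside of `S'`
  have hvec : ∀ S' ⊆ S, 2 * S'.card ≤ S.card → ∃ y : Fin n → ℝ, (∀ i ∈ S', y i = 0) ∧
      ∑ i ∈ S, y i ^ 2 = 1 ∧ Λ < ff b S y := by
    intro S' hS' hc
    have h1 := hcon S' hS' hc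
    unfold RowBd at h1
    push Not at h1
    obtain ⟨x, hx⟩ := h1
    set q := ∑ i ∈ S \ S', x i ^ 2 with hq
    have hq0 : 0 ≤ q := Finset.sum_nonneg fun _ _ => sq_nonneg _
    have hqpos : 0 < q := by
      rcases hq0.lt_or_eq with h | h
      · exact h
      · exfalso
        have h2 : ∀ i ∈ S \ S', x i = 0 := by
          intro i hi
          have h3 := (Finset.sum_eq_zero_iff_of_nonneg (fun _ _ => sq_nonneg _)).1 h.symm i hi
          exact pow_eq_zero_iff two_ne_zero |>.1 h3
        rw [← h, mul_zero] at hx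
        have h3 : ∑ j, (∑ i ∈ S \ S', x i * b i j) ^ 2 = 0 := by
          refine Finset.sum_eq_zero fun j _ => ?_
          rw [Finset.sum_eq_zero fun i hi => by rw [h2 i hi, zero_mul]]
          norm_num
        linarith
    set z : Fin n → ℝ := fun i => if i ∈ S' then 0 else x i with hz
    have e1 : ∀ g : Fin n → ℝ → ℝ, (∀ i, g i 0 = 0) → ∑ i ∈ S, g i (z i) = ∑ i ∈ S \ S', g i (x i) := by
      intro g hg
      rw [← Finset.sum_sdiff hS']
      have e2 : ∑ i ∈ S', g i (z i) = 0 := Finset.sum_eq_zero fun i hi => by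
        simp only [hz, if_pos hi, hg]
      rw [e2, add_zero]
      refine Finset.sum_congr rfl fun i hi => ?_
      simp only [hz, if_neg (Finset.mem_sdiff.1 hi).2]
    have e3 : ff b S z = ∑ j, (∑ i ∈ S \ S', x i * b i j) ^ 2 := by
      unfold ff
      refine Finset.sum_congr rfl fun j _ => ?_
      rw [e1 (fun i t => t * b i j) fun i => zero_mul _]
    have e4 : ∑ i ∈ S, z i ^ 2 = q := e1 (fun _ t => t ^ 2) fun _ => by norm_num
    have hsq : (√q) ^ 2 = q := Real.sq_sqrt hq0
    have hsq0 : 0 < √q := Real.sqrt_pos.2 hqpos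
    refine ⟨fun i => (√q)⁻¹ * z i, fun i hi => ?_, ?_, ?_⟩
    · simp [hz, hi]
    · simp only [mul_pow]
      rw [← Finset.mul_sum, e4, inv_pow, hsq, inv_mul_cancel₀ hqpos.ne']
    · rw [ff_smul, e3, inv_pow, hsq, lt_inv_mul_iff₀ hqpos]
      linarith
  -- the greedy choice
  have hgreedy : ∀ k : ℕ, k ≤ S.card → ∃ x : ℕ → Fin n → ℝ,
      (∀ l < k, ∑ i ∈ S, x l i ^ 2 = 1 ∧ Λ < ff b S (x l)) ∧
      ∀ i ∈ S, ∑ l ∈ Finset.range k, x l i ^ 2 ≤ 3 := by
    intro k
    induction k with
    | zero => exact fun _ => ⟨fun _ _ => 0, by simp, by simp⟩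
    | succ k ih =>
      intro hk
      obtain ⟨x, hx1, hx2⟩ := ih (by omega)
      set S' : Finset (Fin n) := S.filter fun i => 2 ≤ ∑ l ∈ Finset.range k, x l i ^ 2 with hS'
      have hS'S : S' ⊆ S := Finset.filter_subset _ _
      have hc : 2 * S'.card ≤ S.card := by
        have e1 : (2 : ℝ) * S'.card ≤ k := by
          calc (2 : ℝ) * S'.card = ∑ i ∈ S', (2 : ℝ) := by
                rw [Finset.sum_const, nsmul_eq_mul]; ring
            _ ≤ ∑ i ∈ S', ∑ l ∈ Finset.range k, x l i ^ 2 :=
                Finset.sum_le_sum fun i hi => (Finset.mem_filter.1 hi).2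
            _ ≤ ∑ i ∈ S, ∑ l ∈ Finset.range k, x l i ^ 2 :=
                Finset.sum_le_sum_of_subset_of_nonneg hS'S fun _ _ _ =>
                  Finset.sum_nonneg fun _ _ => sq_nonneg _
            _ = ∑ l ∈ Finset.range k, ∑ i ∈ S, x l i ^ 2 := Finset.sum_comm
            _ = ∑ l ∈ Finset.range k, (1 : ℝ) :=
                Finset.sum_congr rfl fun l hl => (hx1 l (Finset.mem_range.1 hl)).1
            _ = k := by simp
        have e2 : 2 * S'.card ≤ k := by exact_mod_cast e1
        omega
      obtain ⟨y, hy1, hy2, hy3⟩ := hvec S' hS'S hc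
      have hupd : ∀ l < k, Function.update x k y l = x l := fun l hl =>
        Function.update_of_ne (by omega) _ _
      refine ⟨Function.update x k y, fun l hl => ?_, fun i hi => ?_⟩
      · rcases Nat.lt_succ_iff_lt_or_eq.1 hl with h | h
        · rw [hupd l h]; exact hx1 l h
        · subst h
          rw [Function.update_self]
          exact ⟨hy2, hy3⟩
      · rw [Finset.sum_range_succ, Function.update_self,
          Finset.sum_congr rfl fun l hl => by rw [hupd l (Finset.mem_range.1 hl)]]
        by_cases hi' : i ∈ S'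
        · rw [hy1 i hi']
          have := hx2 i hi
          linarith
        · have h3 : ∑ l ∈ Finset.range k, x l i ^ 2 < 2 := by
            by_contra h4
            exact hi' (Finset.mem_filter.2 ⟨hi, not_lt.1 h4⟩)
          have h4 : y i ^ 2 ≤ 1 := by
            rw [← hy2]
            exact Finset.single_le_sum (f := fun i => y i ^ 2) (fun _ _ => sq_nonneg _) hi
          linarith
  obtain ⟨x, hx1, hx2⟩ := hgreedy S.card le_rfl
  have h1 := works_final hN (Fin S.card) (fun l => x l) 3 (by norm_num) (fun i hi => by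
    have := hx2 i hi
    rwa [Finset.sum_range] at this)
  have h2 : ∑ _l : Fin S.card, Λ < ∑ l : Fin S.card, ff b S (x l) := by
    refine Finset.sum_lt_sum_of_nonempty ?_ fun l _ => (hx1 l l.2).2
    exact ⟨⟨0, hS.card_pos⟩, Finset.mem_univ _⟩
  rw [Finset.sum_const, Finset.card_univ, Fintype.card_fin, nsmul_eq_mul] at h2
  have h3 : (S.card : ℝ) * Λ = 144 * N := by
    rw [hΛ]
    field_simp
  linarith

end Pool.Agent.W2helper71.NR
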