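import Mathlib
import Pool.Agent.W2helper1.NR.Stm

/-!
# MP_d89a53_pr : piece D (deterministic assembly)
-/

set_option autoImplicit false

namespace Pool.Agent.W2helper71.NR

open Pool.Agent.W2helper1.NR

/-- union of two sets of rows -/
theorem rowBd_union {n : ℕ} {b : Fin n → Fin n → ℝ} {S T : Finset (Fin n)} {Λ₁ Λ₂ : ℝ}
    (h1 : 0 ≤ Λ₁) (h2 : 0 ≤ Λ₂) (hd : Disjoint S T) (hS : RowBd b S Λ₁) (hT : RowBd b T Λ₂) :
    RowBd b (S ∪ T) (Λ₁ + Λ₂) := by
  intro x
  have e1 := hS x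
  have e2 := hT x
  set X := ∑ i ∈ S, x i ^ 2 with hX
  set Y := ∑ i ∈ T, x i ^ 2 with hY
  have hX0 : 0 ≤ X := Finset.sum_nonneg fun i _ => sq_nonneg _
  have hY0 : 0 ≤ Y := Finset.sum_nonneg fun i _ => sq_nonneg _
  set u : Fin n → ℝ := fun j => ∑ i ∈ S, x i * b i j with hu
  set v : Fin n → ℝ := fun j => ∑ i ∈ T, x i * b i j with hv
  have e3 : ∀ j, ∑ i ∈ S ∪ T, x i * b i j = u j + v j := fun j => Finset.sum_union hd
  have e4 : ∑ i ∈ S ∪ T, x i ^ 2 = X + Y := Finset.sum_union hd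
  simp only [e3, e4]
  have e5 : ∑ j, (u j + v j) ^ 2 = ∑ j, u j ^ 2 + ∑ j, v j ^ 2 + 2 * ∑ j, u j * v j := by
    rw [Finset.mul_sum, ← Finset.sum_add_distrib, ← Finset.sum_add_distrib]
    exact Finset.sum_congr rfl fun j _ => by ring
  have e6 : (∑ j, u j * v j) ^ 2 ≤ (∑ j, u j ^ 2) * ∑ j, v j ^ 2 :=
    Finset.sum_mul_sq_le_sq_mul_sq _ _ _
  have hv0 : 0 ≤ ∑ j, v j ^ 2 := Finset.sum_nonneg fun i _ => sq_nonneg _
  have e7 : (∑ j, u j ^ 2) * ∑ j, v j ^ 2 ≤ (Λ₁ * X) * (Λ₂ * Y) :=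
    mul_le_mul e1 e2 hv0 (mul_nonneg h1 hX0)
  have e8 : (∑ j, u j * v j) ^ 2 ≤ ((Λ₁ * Y + Λ₂ * X) / 2) ^ 2 := by
    refine (e6.trans e7).trans ?_
    nlinarith [sq_nonneg (Λ₁ * Y - Λ₂ * X)]
  have e9 : ∑ j, u j * v j ≤ (Λ₁ * Y + Λ₂ * X) / 2 := by
    have h3 : 0 ≤ (Λ₁ * Y + Λ₂ * X) / 2 := by positivity
    exact (abs_le_of_sq_le_sq' e8 h3).2
  rw [e5]
  nlinarith

theorem rowBd_mono {n : ℕ} {b : Fin n → Fin n → ℝ} {S : Finset (Fin n)} {Λ₁ Λ₂ : ℝ}
    (h : Λ₁ ≤ Λ₂) (hS : RowBd b S Λ₁) : RowBd b S Λ₂ := by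
  intro x
  refine (hS x).trans ?_
  have : 0 ≤ ∑ i ∈ S, x i ^ 2 := Finset.sum_nonneg fun i _ => sq_nonneg _
  gcongr

/-- the number of steps -/
theorem steps {ε : ℝ} (h0 : 0 < ε) (h1 : ε ≤ 1 / 6) :
    ∃ t : ℕ, 2 / ε ≤ 2 ^ t ∧ (t : ℝ) ≤ 4 * Real.log (1 / ε) := by
  have hL : 1 ≤ Real.log (1 / ε) := by
    rw [Real.le_log_iff_exp_le (by positivity), le_div_iff₀ h0]
    have := Real.exp_one_lt_d9
    nlinarith
  have hlog2 := Real.log_two_gt_d9
  have e1 : Real.logb 2 (2 / ε) = 1 + Real.log (1 / ε) / Real.log 2 := by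
    have : (2 : ℝ) / ε = 2 * (1 / ε) := by ring
    rw [Real.logb, this, Real.log_mul (by norm_num) (by positivity), add_div, div_self (by positivity)]
  refine ⟨⌈Real.logb 2 (2 / ε)⌉₊, ?_, ?_⟩
  · have h2 := Nat.le_ceil (Real.logb 2 (2 / ε))
    rw [← Real.rpow_natCast]
    calc 2 / ε = (2 : ℝ) ^ (Real.logb 2 (2 / ε)) := (Real.rpow_logb (by norm_num) (by norm_num)
          (by positivity)).symm
      _ ≤ _ := Real.rpow_le_rpow_of_exponent_le (by norm_num) h2
  · have h3 : 0 ≤ Real.logb 2 (2 / ε) := by rw [e1]; positivity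
    have h4 := (Nat.ceil_lt_add_one h3).le
    rw [e1] at h4
    have h5 : Real.log (1 / ε) / Real.log 2 ≤ 2 * Real.log (1 / ε) := by
      rw [div_le_iff₀ (by positivity)]
      nlinarith
    rw [e1]
    linarith

theorem pieceD (hA : PieceA) : PieceD := by
  classical
  intro n b ε R hε hε1 hR ⟨I₀, hI₀, hcol⟩ hsgn
  have hL : 0 ≤ Real.log (1 / ε) := Real.log_nonneg (by rw [le_div_iff₀ hε]; linarith)
  set T₀ : Finset (Fin n) := I₀ᶜ with hT₀
  set Λ : ℝ := 144 * 352 * R with hΛ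
  have hΛ0 : 0 ≤ Λ := by positivity
  have hn0 : (0 : ℝ) ≤ ε * n / 2 := by positivity
  have key : ∀ t : ℕ, ∃ T ⊆ T₀, RowBd b (T₀ \ T) (t * Λ) ∧
      ((T.card : ℝ) ≤ ε * n / 2 ∨ (T.card : ℝ) * 2 ^ t ≤ n) := by
    intro t
    induction t with
    | zero =>
      refine ⟨T₀, Finset.Subset.refl _, ?_, Or.inr ?_⟩
      · intro x
        simp
      · rw [pow_zero, mul_one]
        have := Finset.card_le_univ T₀
        rw [Fintype.card_fin] at this
        exact_mod_cast this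
    | succ t ih =>
      obtain ⟨T, hTT, hrow, hcard⟩ := ih
      by_cases hsmall : (T.card : ℝ) ≤ ε * n / 2
      · refine ⟨T, hTT, rowBd_mono ?_ hrow, Or.inl hsmall⟩
        push_cast
        nlinarith
      · push Not at hsmall
        have hTn : T.Nonempty := by
          rw [← Finset.card_pos]
          have : (0 : ℝ) < T.card := lt_of_le_of_lt hn0 hsmall
          exact_mod_cast this
        have hcolT : ∀ j, ∑ i ∈ T, (b i j) ^ 2 ≤ R := fun j =>
          (Finset.sum_le_sum_of_subset_of_nonneg hTT fun _ _ _ => sq_nonneg _).trans (hcol j)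
        obtain ⟨S', hS'T, hS'c, hS'r⟩ := hA n b T _ hTn (hsgn T hsmall hcolT)
        have hTc : (T.card : ℝ) ≠ 0 := by
          have := hTn.card_pos
          positivity
        have e1 : 144 * (352 * R * T.card) / (T.card : ℝ) = Λ := by
          rw [hΛ]
          field_simp
        rw [e1] at hS'r
        refine ⟨S', hS'T.trans hTT, ?_, Or.inr ?_⟩
        · have e2 : T₀ \ S' = (T₀ \ T) ∪ (T \ S') := by
            ext i
            simp only [Finset.mem_union, Finset.mem_sdiff]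
            constructor
            · rintro ⟨h1, h2⟩
              by_cases h3 : i ∈ T
              · exact Or.inr ⟨h3, h2⟩
              · exact Or.inl ⟨h1, h3⟩
            · rintro (⟨h1, h2⟩ | ⟨h1, h2⟩)
              · exact ⟨h1, fun h3 => h2 (hS'T h3)⟩
              · exact ⟨hTT h1, h2⟩
          have e3 : Disjoint (T₀ \ T) (T \ S') := by
            rw [Finset.disjoint_left]
            intro i h1 h2
            exact (Finset.mem_sdiff.1 h1).2 (Finset.mem_sdiff.1 h2).1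
          have h4 := rowBd_union (by positivity) hΛ0 e3 hrow hS'r
          rw [← e2] at h4
          have e5 : ((t + 1 : ℕ) : ℝ) * Λ = t * Λ + Λ := by push_cast; ring
          rw [e5]
          exact h4
        · have h5 : (T.card : ℝ) * 2 ^ t ≤ n := by
            rcases hcard with h | h
            · exact absurd h (not_le.2 hsmall)
            · exact h
          have h6 : 2 * (S'.card : ℝ) ≤ T.card := by exact_mod_cast hS'c
          calc (S'.card : ℝ) * 2 ^ (t + 1) = (2 * S'.card) * 2 ^ t := by rw [pow_succ]; ring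
            _ ≤ T.card * 2 ^ t := by gcongr
            _ ≤ n := h5
  obtain ⟨t, ht1, ht2⟩ := steps hε hε1
  obtain ⟨T, hTT, hrow, hcard⟩ := key t
  have hT : (T.card : ℝ) ≤ ε * n / 2 := by
    rcases hcard with h | h
    · exact h
    · have h1 : (T.card : ℝ) * (2 / ε) ≤ n := le_trans (by gcongr) h
      rw [mul_div_assoc', div_le_iff₀ hε] at h1
      linarith
  refine ⟨I₀ ∪ T, ?_, ?_⟩
  · have h1 : ((I₀ ∪ T).card : ℝ) ≤ I₀.card + T.card := by exact_mod_cast Finset.card_union_le _ _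
    linarith
  · have e1 : (I₀ ∪ T)ᶜ = T₀ \ T := by
      ext i
      simp [hT₀]
    rw [e1]
    refine rowBd_mono ?_ hrow
    calc (t : ℝ) * Λ ≤ (4 * Real.log (1 / ε)) * Λ := by gcongr
      _ = _ := by rw [hΛ]; ring

end Pool.Agent.W2helper71.NR
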